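import Pool.Agent.helper59.GF.Spec

set_option autoImplicit false

/-!
# gf:LAM (MP_06d6be_co): the signs of the weights at the nodes `0, …, p + 1`
-/

namespace Pool.Agent.GF

theorem LAM_erase {n : ℕ} (r : Fin (n + 1)) (g : Fin (n + 1) → ℝ) :
    ∏ r' ∈ Finset.univ.erase r, g r' = ∏ i : Fin n, g (r.succAbove i) := by
  have h : (Finset.univ.erase r : Finset (Fin (n + 1))) = Finset.univ.image r.succAbove := by
    ext x
    rw [Fin.image_succAbove_univ]
    simp
  rw [h, Finset.prod_image]
  intro a _ b _ hab
  exact Fin.succAbove_right_injective hab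

theorem LAM_last (p : ℕ) : 0 < mu p (cen p) (Fin.last (p + 1)) := by
  unfold mu ell cen
  apply div_pos
  · apply Finset.prod_pos
    intro q _
    have h : ((q : ℕ) : ℝ) + 1 ≤ p := by exact_mod_cast q.2
    simp only [Fin.val_last]
    push_cast
    linarith
  · rw [LAM_erase]
    apply Finset.prod_pos
    intro i _
    rw [Fin.succAbove_last]
    have h : ((i : ℕ) : ℝ) + 1 ≤ (p : ℝ) + 1 := by exact_mod_cast i.2
    simp only [Fin.val_last, Fin.val_castSucc]
    push_cast
    linarith

theorem LAM_cast (p : ℕ) (q : Fin (p + 1)) : mu p (cen p) q.castSucc < 0 := by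
  unfold mu
  rw [LAM_erase, Fin.prod_univ_castSucc]
  have hlast : (q.castSucc.succAbove (Fin.last p) : Fin (p + 2)) = Fin.last (p + 1) := by
    rw [Fin.succAbove_of_le_castSucc]
    · rfl
    · rw [Fin.le_def]
      simp only [Fin.val_castSucc, Fin.val_last]
      exact Nat.lt_succ_iff.1 q.2
  rw [hlast, ← div_div]
  apply div_neg_of_pos_of_neg
  · unfold ell
    rw [← Finset.prod_div_distrib]
    apply Finset.prod_pos
    intro i _
    unfold cen
    by_cases hi : (i : ℕ) < (q : ℕ)
    · have e : (q.castSucc.succAbove (Fin.castSucc i) : Fin (p + 2)) = i.castSucc.castSucc := by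
        rw [Fin.succAbove_of_castSucc_lt]
        rw [Fin.lt_def]
        simpa using hi
      rw [e]
      have h : ((i : ℕ) : ℝ) + 1 ≤ (q : ℕ) := by exact_mod_cast hi
      simp only [Fin.val_castSucc]
      apply div_pos <;> linarith
    · have e : (q.castSucc.succAbove (Fin.castSucc i) : Fin (p + 2)) = i.castSucc.succ := by
        rw [Fin.succAbove_of_le_castSucc]
        rw [Fin.le_def]
        simpa using hi
      rw [e]
      have h : ((q : ℕ) : ℝ) ≤ (i : ℕ) := by exact_mod_cast (not_lt.1 hi)
      simp only [Fin.val_castSucc, Fin.val_succ]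
      push_cast
      apply div_pos_of_neg_of_neg <;> linarith
  · unfold cen
    have h : ((q : ℕ) : ℝ) + 1 ≤ (p : ℝ) + 1 := by exact_mod_cast q.2
    simp only [Fin.val_castSucc, Fin.val_last]
    push_cast
    linarith

theorem LAM (hLVL : LVL_stmt) : LAM_stmt := by
  intro p
  have h0 := LAM_last p
  refine ⟨h0, ?_, ?_⟩
  · intro q
    unfold lam
    exact div_pos (neg_pos.2 (LAM_cast p q)) h0
  · have hinj : Function.Injective (cen p) := by
      intro a b hab
      unfold cen at hab
      have h : (a : ℕ) = (b : ℕ) := by exact_mod_cast hab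
      exact Fin.ext h
    have h1 := (hLVL p (cen p) hinj).1
    rw [Fin.sum_univ_castSucc] at h1
    unfold lam
    rw [← Finset.sum_div, Finset.sum_neg_distrib, div_eq_one_iff_eq h0.ne']
    linarith

end Pool.Agent.GF
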